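import Mathlib

open Filter Topology Set MeasureTheory

namespace Pool.Agent.Results.MP_5ce401_an.NoConstant

/-- The standing assumptions on the pair `(a,h)` of equation (E) on `[t0, ∞)`. -/
structure Admissible (t0 : ℝ) (a h : ℝ → ℝ) : Prop where
  cont_a : ContinuousOn a (Ici t0)
  cont_h : ContinuousOn h (Ici t0)
  h_le : ∀ t, t0 ≤ t → h t ≤ t
  h_lim : Tendsto h atTop atTop
  bdd_a : ∃ A : ℝ, ∀ t, t0 ≤ t → |a t| ≤ A
  bdd_delay : ∃ τ : ℝ, ∀ t, t0 ≤ t → t - h t ≤ τ

/-- `ψ` is an admissible initial function: continuous and bounded on `(-∞, t0]`. -/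
def IsInitial (t0 : ℝ) (ψ : ℝ → ℝ) : Prop :=
  ContinuousOn ψ (Iic t0) ∧ ∃ B : ℝ, ∀ t, t ≤ t0 → |ψ t| ≤ B

/-- `x` solves (E): `x'(t) + a(t) x(h(t)) = 0` for `t ≥ t0` (right derivative at `t0`), with
`x = ψ` on `(-∞, t0]`. -/
def IsSolution (t0 : ℝ) (a h ψ x : ℝ → ℝ) : Prop :=
  (∀ t, t ≤ t0 → x t = ψ t) ∧
  ∀ t, t0 ≤ t → HasDerivWithinAt x (-(a t * x (h t))) (Ici t0) t

/-- Asymptotic stability of (E). -/
def IsAS (t0 : ℝ) (a h : ℝ → ℝ) : Prop :=
  (∀ ε > 0, ∃ δ > 0, ∀ ψ, IsInitial t0 ψ → (∀ t, t ≤ t0 → |ψ t| ≤ δ) →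
    ∀ x, IsSolution t0 a h ψ x → ∀ t, t0 ≤ t → |x t| < ε) ∧
  (∀ ψ, IsInitial t0 ψ → ∀ x, IsSolution t0 a h ψ x → Tendsto x atTop (𝓝 0))

/-- The integral `∫_{h(t)}^t a(ζ) dζ`. -/
noncomputable def delayIntegral (a h : ℝ → ℝ) (t : ℝ) : ℝ := ∫ ζ in (h t)..t, a ζ

/-- `g(t) = e * max (cos t) 0`. -/
noncomputable def g (e t : ℝ) : ℝ := e * max (Real.cos t) 0

noncomputable def a0 (e t : ℝ) : ℝ := -(Real.cos t * Real.exp (Real.sin t - Real.sin (t + g e t)))

noncomputable def h0 (e t : ℝ) : ℝ := t - 2 * Real.pi + g e t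

lemma g_nonneg {e : ℝ} (he : 0 ≤ e) (t : ℝ) : 0 ≤ g e t := mul_nonneg he (le_max_right _ _)

lemma g_le {e : ℝ} (he : 0 ≤ e) (t : ℝ) : g e t ≤ e := by
  have : max (Real.cos t) 0 ≤ 1 := max_le (Real.cos_le_one t) zero_le_one
  unfold g; nlinarith

lemma g_periodic (e : ℝ) : Function.Periodic (g e) (2 * Real.pi) := by
  intro t; unfold g; rw [Real.cos_add_two_pi]

lemma a0_periodic (e : ℝ) : Function.Periodic (a0 e) (2 * Real.pi) := by
  intro t
  unfold a0
  rw [Real.cos_add_two_pi, Real.sin_add_two_pi, g_periodic e t,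
    show t + 2 * Real.pi + g e t = (t + g e t) + 2 * Real.pi by ring, Real.sin_add_two_pi]

lemma cont_g (e : ℝ) : Continuous (g e) := by unfold g; fun_prop

lemma cont_a0 (e : ℝ) : Continuous (a0 e) := by
  have := cont_g e
  unfold a0; fun_prop

lemma cont_h0 (e : ℝ) : Continuous (h0 e) := by
  have := cont_g e
  unfold h0; fun_prop

/-- For `cos s > 0` and `0 ≤ v ≤ cos s` one has `cos (s+v) ≥ 0`. -/
lemma cos_add_nonneg {s v : ℝ} (hv : 0 ≤ v) (hvs : v ≤ Real.cos s) : 0 ≤ Real.cos (s + v) := by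
  rw [Real.cos_add]
  have h1 : 1 - v ^ 2 / 2 ≤ Real.cos v := Real.one_sub_sq_div_two_le_cos
  have h2 : Real.sin v ≤ v := Real.sin_le hv
  have hc1 : Real.cos s ≤ 1 := Real.cos_le_one s
  have h3 : 0 ≤ Real.sin v := Real.sin_nonneg_of_nonneg_of_le_pi hv
    (by linarith [Real.pi_gt_three])
  have h4 := Real.sin_sq_add_cos_sq s
  have h5 : |Real.sin s| ≤ 1 - Real.cos s ^ 2 / 2 := by
    apply abs_le_of_sq_le_sq
    · nlinarith [sq_nonneg (Real.cos s ^ 2)]
    · nlinarith
  have h6 : Real.sin s * Real.sin v ≤ |Real.sin s| * v := by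
    calc Real.sin s * Real.sin v ≤ |Real.sin s| * Real.sin v := by
          gcongr; exact le_abs_self _
      _ ≤ |Real.sin s| * v := by gcongr
  have h7 : |Real.sin s| * v ≤ |Real.sin s| * Real.cos s := by gcongr
  have h8 : |Real.sin s| ≤ Real.cos v := by nlinarith
  nlinarith

/-- `sin (t + g) - sin t ≥ 0`. -/
lemma delta_nonneg {e : ℝ} (he : 0 ≤ e) (he1 : e ≤ 1) (t : ℝ) :
    0 ≤ Real.sin (t + g e t) - Real.sin t := by
  rcases le_total (Real.cos t) 0 with hc | hc
  · have : g e t = 0 := by unfold g; rw [max_eq_right hc, mul_zero]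
    rw [this]; simp
  · have hg : g e t = e * Real.cos t := by unfold g; rw [max_eq_left hc]
    have hg0 := g_nonneg he t
    have hgc : g e t ≤ Real.cos t := by rw [hg]; nlinarith
    set v := g e t
    have hc1 : Real.cos t ≤ 1 := Real.cos_le_one t
    rw [Real.sin_add]
    have h1 : 1 - v ^ 2 / 2 ≤ Real.cos v := Real.one_sub_sq_div_two_le_cos
    have h1' : Real.cos v ≤ 1 := Real.cos_le_one v
    have h2 : v / 2 ≤ Real.sin v := by
      have := Real.mul_le_sin hg0 (by linarith [Real.pi_gt_three])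
      have hp : (1 : ℝ) / 2 ≤ 2 / Real.pi := by
        rw [div_le_div_iff₀ (by norm_num) Real.pi_pos]; linarith [Real.pi_lt_four]
      nlinarith
    have h3 : Real.sin t ≤ 1 := Real.sin_le_one t
    nlinarith [mul_nonneg hc (sub_nonneg.2 h2), mul_nonneg hg0 (sub_nonneg.2 hgc)]

lemma delta_le {e : ℝ} (he : 0 ≤ e) (t : ℝ) :
    Real.sin (t + g e t) - Real.sin t ≤ g e t := by
  have hg0 := g_nonneg he t
  set v := g e t
  have h1 : Real.sin (t + v) - Real.sin t = 2 * Real.sin (v / 2) * Real.cos (t + v / 2) := by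
    rw [Real.sin_sub_sin]; congr 2 <;> ring_nf
  rw [h1]
  have h2 : |Real.sin (v / 2)| ≤ v / 2 := by
    have := Real.abs_sin_le_abs (x := v / 2)
    rwa [abs_of_nonneg (by positivity : 0 ≤ v / 2)] at this
  have h3 : |Real.cos (t + v / 2)| ≤ 1 := Real.abs_cos_le_one _
  have h4 : |Real.sin (v / 2) * Real.cos (t + v / 2)| ≤ v / 2 * 1 := by
    rw [abs_mul]; gcongr
  nlinarith [le_abs_self (Real.sin (v / 2) * Real.cos (t + v / 2))]

/-- where the integrand is compared with `-cos`. -/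
lemma a0_add_cos_nonneg {e : ℝ} (he : 0 ≤ e) (he1 : e ≤ 1) (t : ℝ) :
    0 ≤ a0 e t + Real.cos t := by
  have hd := delta_nonneg he he1 t
  unfold a0
  rcases le_total (Real.cos t) 0 with hc | hc
  · have : g e t = 0 := by unfold g; rw [max_eq_right hc, mul_zero]
    rw [this]; simp
  · have : Real.exp (Real.sin t - Real.sin (t + g e t)) ≤ 1 := by
      rw [Real.exp_le_one_iff]; linarith
    nlinarith

lemma a0_add_cos_le {e : ℝ} (he : 0 ≤ e) (he1 : e ≤ 1) (t : ℝ) :
    a0 e t + Real.cos t ≤ e := by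
  have hd := delta_nonneg he he1 t
  have hd2 := delta_le he t
  have hg := g_le he t
  unfold a0
  rcases le_total (Real.cos t) 0 with hc | hc
  · have : g e t = 0 := by unfold g; rw [max_eq_right hc, mul_zero]
    rw [this]; simpa using he
  · have h1 : Real.sin t - Real.sin (t + g e t) + 1 ≤
        Real.exp (Real.sin t - Real.sin (t + g e t)) := Real.add_one_le_exp _
    have h2 := Real.cos_le_one t
    have h3 : 1 - Real.exp (Real.sin t - Real.sin (t + g e t)) ≤ e := by linarith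
    nlinarith

lemma a0_nonpos {e t : ℝ} (hc : 0 ≤ Real.cos t) : a0 e t ≤ 0 := by
  unfold a0
  have := mul_nonneg hc (Real.exp_pos (Real.sin t - Real.sin (t + g e t))).le
  linarith

lemma neg_one_le_a0 {e : ℝ} (he : 0 ≤ e) (he1 : e ≤ 1) (t : ℝ) : -1 ≤ a0 e t := by
  have := a0_add_cos_nonneg he he1 t
  have := Real.cos_le_one t
  linarith

lemma abs_a0_le {e : ℝ} (he : 0 ≤ e) (he1 : e ≤ 1) (t : ℝ) : |a0 e t| ≤ 2 := by
  have h1 := a0_add_cos_nonneg he he1 t
  have h2 := a0_add_cos_le he he1 t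
  have h3 := Real.cos_le_one t
  have h4 := Real.neg_one_le_cos t
  rw [abs_le]; constructor <;> linarith

/-- The mean `D = ∫_0^{2π} a`. -/
noncomputable def D (e : ℝ) : ℝ := ∫ t in (0 : ℝ)..(2 * Real.pi), a0 e t

lemma D_eq (e : ℝ) : D e = ∫ t in (0 : ℝ)..(2 * Real.pi), (a0 e t + Real.cos t) := by
  rw [intervalIntegral.integral_add ((cont_a0 e).intervalIntegrable _ _)
    (Real.continuous_cos.intervalIntegrable _ _)]
  simp [D]

lemma D_pos {e : ℝ} (he : 0 < e) (he1 : e ≤ 1) : 0 < D e := by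
  rw [D_eq]
  apply intervalIntegral.integral_pos (by positivity)
  · exact ((cont_a0 e).add Real.continuous_cos).continuousOn
  · intro t _
    exact a0_add_cos_nonneg he.le he1 t
  · refine ⟨0, ⟨le_refl _, by positivity⟩, ?_⟩
    have hg : g e 0 = e := by unfold g; simp
    unfold a0
    rw [hg]
    simp only [Real.cos_zero, Real.sin_zero, zero_add, one_mul, zero_sub]
    have h1 : 0 < Real.sin e := Real.sin_pos_of_pos_of_lt_pi he (by linarith [Real.pi_gt_three])
    have h2 : Real.exp (-Real.sin e) < 1 := by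
      rw [Real.exp_lt_one_iff]; linarith
    linarith

lemma D_le {e : ℝ} (he : 0 ≤ e) (he1 : e ≤ 1) : D e ≤ 2 * Real.pi * e := by
  rw [D_eq]
  have h : ∫ t in (0 : ℝ)..(2 * Real.pi), (a0 e t + Real.cos t) ≤
      ∫ _t in (0 : ℝ)..(2 * Real.pi), e := by
    apply intervalIntegral.integral_mono_on (by positivity)
    · exact ((cont_a0 e).add Real.continuous_cos).intervalIntegrable _ _
    · simp
    · intro t _; exact a0_add_cos_le he he1 t
  simpa using h

lemma integral_eq (e t : ℝ) : delayIntegral (a0 e) (h0 e) t =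
    D e - ∫ s in (t - 2 * Real.pi)..(t - 2 * Real.pi + g e (t - 2 * Real.pi)), a0 e s := by
  unfold delayIntegral h0
  have hg : g e (t - 2 * Real.pi) = g e t := by
    have := g_periodic e (t - 2 * Real.pi)
    rw [← this]; congr 1; ring
  rw [hg]
  have h1 : ∫ s in (t - 2 * Real.pi)..t, a0 e s = D e := by
    have := (a0_periodic e).intervalIntegral_add_eq (t - 2 * Real.pi) 0
    rw [show t - 2 * Real.pi + 2 * Real.pi = t by ring, zero_add] at this
    exact this
  rw [← h1]
  have := intervalIntegral.integral_add_adjacent_intervals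
    ((cont_a0 e).intervalIntegrable (μ := volume) (t - 2 * Real.pi) (t - 2 * Real.pi + g e t))
    ((cont_a0 e).intervalIntegrable (μ := volume) (t - 2 * Real.pi + g e t) t)
  linarith

lemma bounds {e : ℝ} (he : 0 ≤ e) (he1 : e ≤ 1) (t : ℝ) :
    D e ≤ delayIntegral (a0 e) (h0 e) t ∧
    delayIntegral (a0 e) (h0 e) t ≤ (2 * Real.pi + 1) * e := by
  rw [integral_eq]
  set s := t - 2 * Real.pi
  have hD := D_le he he1
  rcases le_total (Real.cos s) 0 with hc | hc
  · have : g e s = 0 := by unfold g; rw [max_eq_right hc, mul_zero]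
    rw [this]
    simp
    linarith
  · have hg : g e s = e * Real.cos s := by unfold g; rw [max_eq_left hc]
    have hg0 := g_nonneg he s
    have hgc : g e s ≤ Real.cos s := by rw [hg]; nlinarith
    have hge := g_le he s
    have h1 : ∫ u in s..(s + g e s), a0 e u ≤ ∫ _u in s..(s + g e s), (0 : ℝ) := by
      apply intervalIntegral.integral_mono_on (by linarith)
      · exact (cont_a0 e).intervalIntegrable _ _
      · simp
      · intro u hu
        apply a0_nonpos
        have := cos_add_nonneg (s := s) (v := u - s) (by linarith [hu.1]) (by linarith [hu.2])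
        rwa [show s + (u - s) = u by ring] at this
    have h2 : ∫ _u in s..(s + g e s), (-1 : ℝ) ≤ ∫ u in s..(s + g e s), a0 e u := by
      apply intervalIntegral.integral_mono_on (by linarith)
      · simp
      · exact (cont_a0 e).intervalIntegrable _ _
      · intro u _
        exact neg_one_le_a0 he he1 u
    simp at h1 h2
    constructor
    · linarith
    · linarith

lemma admissible {e : ℝ} (he : 0 ≤ e) (he1 : e ≤ 1) (t0 : ℝ) : Admissible t0 (a0 e) (h0 e) where
  cont_a := (cont_a0 e).continuousOn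
  cont_h := (cont_h0 e).continuousOn
  h_le t _ := by
    unfold h0
    linarith [g_le he t, Real.pi_gt_three]
  h_lim := by
    apply tendsto_atTop_mono (f := fun t => t - 2 * Real.pi)
    · intro t; unfold h0; linarith [g_nonneg he t]
    · exact tendsto_atTop_add_const_right _ _ tendsto_id
  bdd_a := ⟨2, fun t _ => abs_a0_le he he1 t⟩
  bdd_delay := ⟨2 * Real.pi, fun t _ => by unfold h0; linarith [g_nonneg he t]⟩

/-- The solution `x(t) = exp (sin t)`. -/
lemma solution (e t0 : ℝ) :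
    IsSolution t0 (a0 e) (h0 e) (fun t => Real.exp (Real.sin t)) (fun t => Real.exp (Real.sin t)) := by
  refine ⟨fun _ _ => rfl, fun t _ => ?_⟩
  have h1 : HasDerivAt (fun t => Real.exp (Real.sin t)) (Real.exp (Real.sin t) * Real.cos t) t :=
    (Real.hasDerivAt_sin t).exp
  have h2 : -(a0 e t * Real.exp (Real.sin (h0 e t))) = Real.exp (Real.sin t) * Real.cos t := by
    unfold a0 h0
    rw [show t - 2 * Real.pi + g e t = (t + g e t) - 2 * Real.pi by ring, Real.sin_sub_two_pi,
      Real.exp_sub]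
    field_simp
  show HasDerivWithinAt (fun t => Real.exp (Real.sin t))
    (-(a0 e t * Real.exp (Real.sin (h0 e t)))) (Ici t0) t
  rw [h2]
  exact h1.hasDerivWithinAt

lemma not_AS (e t0 : ℝ) : ¬ IsAS t0 (a0 e) (h0 e) := by
  rintro ⟨_, h⟩
  have hinit : IsInitial t0 (fun t => Real.exp (Real.sin t)) := by
    refine ⟨(Real.continuous_exp.comp Real.continuous_sin).continuousOn, Real.exp 1, ?_⟩
    intro t _
    rw [abs_of_pos (Real.exp_pos _)]
    exact Real.exp_le_exp.2 (Real.sin_le_one t)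
  have hlim := h _ hinit _ (solution e t0)
  have h1 : ∀ t : ℝ, Real.exp (-1) ≤ Real.exp (Real.sin t) :=
    fun t => Real.exp_le_exp.2 (Real.neg_one_le_sin t)
  have h2 : Real.exp (-1) ≤ 0 := ge_of_tendsto' hlim h1
  exact absurd h2 (not_le.2 (Real.exp_pos _))

/-- **Answer to Q1: no such constant exists.** -/
theorem result : ∀ M : ℝ, 0 < M → ∀ t0 : ℝ, ∃ a h : ℝ → ℝ, Admissible t0 a h ∧
    0 < liminf (delayIntegral a h) atTop ∧ limsup (delayIntegral a h) atTop < M ∧
    ¬ IsAS t0 a h := by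
  intro M hM t0
  set e := min 1 (M / 8)
  have he : 0 < e := lt_min one_pos (by positivity)
  have he1 : e ≤ 1 := min_le_left _ _
  have heM : e ≤ M / 8 := min_le_right _ _
  have hb := bounds he.le he1
  refine ⟨a0 e, h0 e, admissible he.le he1 t0, ?_, ?_, not_AS e t0⟩
  · refine lt_of_lt_of_le (D_pos he he1) ?_
    apply le_liminf_of_le
    · exact (isBoundedUnder_of ⟨(2 * Real.pi + 1) * e, fun t => (hb t).2⟩).isCoboundedUnder_ge
    · exact Eventually.of_forall fun t => (hb t).1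
  · refine lt_of_le_of_lt (b := (2 * Real.pi + 1) * e) ?_ ?_
    · apply limsup_le_of_le
      · exact (isBoundedUnder_of ⟨D e, fun t => (hb t).1⟩).isCoboundedUnder_le
      · exact Eventually.of_forall fun t => (hb t).2
    · nlinarith [Real.pi_lt_d2]

end Pool.Agent.Results.MP_5ce401_an.NoConstant
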